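import Pool.Agent.W573.GA.Ele3

/-! Project GA (helper78), task GA-10 (helper573): `S_ELE`. -/

set_option autoImplicit false

namespace Pool.Agent.W573.GA

open Finset
open Pool.Agent.W78.GA
open Pool.Agent.H970R2.X (P1 rich_ap)

variable {t c : ℤ}

theorem ele (hD : t ^ 2 < 4 * c) : S_ELE t c := by
  classical
  set Dn := (t ^ 2 - 4 * c).natAbs with hDn
  set B₀ := 1 + t.natAbs + c.natAbs with hB₀
  have hDn1 : 1 ≤ Dn := by
    rw [hDn]
    have : t ^ 2 - 4 * c ≠ 0 := by omega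
    exact Int.natAbs_pos.2 this
  obtain ⟨cc, hcc, -, hR⟩ := rich_ap (4 * Dn) (by omega)
  obtain ⟨v₀, hv₀⟩ := hR 1 le_rfl
  have hP1 : ∀ p : ℕ, P1 (4 * Dn) p → p % (4 * Dn) = 1 := by
    intro p hp
    unfold P1 at hp
    rw [hp]
    exact Nat.mod_eq_of_lt (by omega)
  have hdata : ∀ p : ℕ, ∃ (r : ℤ) (z : Qd t c) (a : ℕ), p.Prime → P1 (4 * Dn) p →
      ((p : ℤ) ∣ r ^ 2 - t * r + c ∧ lat p r z ∧ nm z = p * a ∧ 1 ≤ a ∧ a ≤ B₀) := by
    intro p
    by_cases hp : p.Prime ∧ P1 (4 * Dn) p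
    · obtain ⟨r, hr⟩ := root_exists hD hp.1 (hP1 p hp.2)
      obtain ⟨z, a, h1, h2, h3, h4⟩ := zp_exists hD hp.1 hr
      exact ⟨r, z, a, fun _ _ => ⟨hr, h1, h2, h3, h4⟩⟩
    · exact ⟨0, 0, 0, fun h1 h2 => absurd ⟨h1, h2⟩ hp⟩
  choose r z a hrza using hdata
  obtain ⟨w, hw, j₀, hblock⟩ := block (P1 (4 * Dn)) cc hcc v₀ hv₀ (max B₀ (4 * Dn))
    (fun p => (a p, ((z p).re % (a p : ℤ)).toNat, ((z p).im % (a p : ℤ)).toNat))
    (range (B₀ + 1) ×ˢ range (B₀ + 1) ×ˢ range (B₀ + 1)) (by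
      intro p hp hp1 _
      obtain ⟨-, -, -, h1, h2⟩ := hrza p hp hp1
      have ha0 : (0 : ℤ) < a p := by exact_mod_cast h1
      have hh : ∀ x : ℤ, (x % (a p : ℤ)).toNat < B₀ + 1 := by
        intro x
        have h3 := Int.emod_lt_of_pos x ha0
        have h4 := Int.emod_nonneg x ha0.ne'
        omega
      rw [mem_product, mem_product, mem_range, mem_range, mem_range]
      exact ⟨Nat.lt_succ_of_le h2, hh _, hh _⟩)
  choose! A B hAB hdisj htype hAw hBw using hblock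
  -- facts on the primes in the blocks
  have hfacts : ∀ j, j₀ ≤ j → ∀ p : ℕ, p ∈ A j ∨ p ∈ B j → p.Prime ∧ 5 ≤ p ∧
      ¬ (p : ℤ) ∣ t ^ 2 - 4 * c ∧ Nat.Coprime p (a p) ∧ 1 ≤ a p ∧
      (p : ℤ) ∣ r p ^ 2 - t * r p + c ∧ lat p (r p) (z p) ∧ nm (z p) = p * a p := by
    intro j hj p hp
    obtain ⟨h1, h2, h3, -, -⟩ := hAB j hj p hp
    obtain ⟨g1, g2, g3, g4, g5⟩ := hrza p h1 h2
    have h4 : 4 * Dn < p := lt_of_le_of_lt (le_max_right _ _) h3
    have h5 : B₀ < p := lt_of_le_of_lt (le_max_left _ _) h3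
    refine ⟨h1, by omega, ?_, ?_, g4, g1, g2, g3⟩
    · intro h
      have h6 : p ∣ Dn := by
        rw [hDn]
        exact Int.natCast_dvd.1 h
      have := Nat.le_of_dvd (by omega) h6
      omega
    · rw [Nat.Prime.coprime_iff_not_dvd h1]
      intro h
      have := Nat.le_of_dvd (by omega) h
      omega
  have hjeq : ∀ j k : ℕ, j₀ ≤ j → j₀ ≤ k → ∀ p : ℕ, (p ∈ A j ∨ p ∈ B j) → (p ∈ A k ∨ p ∈ B k) →
      j = k := by
    intro j k hj hk p hp hp'
    obtain ⟨-, -, -, h1, h2⟩ := hAB j hj p hp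
    obtain ⟨-, -, -, h3, h4⟩ := hAB k hk p hp'
    have h5 : (2 : ℝ) ^ j < 2 ^ (k + 1) := by linarith
    have h6 : (2 : ℝ) ^ k < 2 ^ (j + 1) := by linarith
    have h7 : j < k + 1 := (pow_lt_pow_iff_right₀ (by norm_num : (1:ℝ) < 2)).1 h5
    have h8 : k < j + 1 := (pow_lt_pow_iff_right₀ (by norm_num : (1:ℝ) < 2)).1 h6
    omega
  set Ap : ℕ → Prop := fun p => ∃ j, j₀ ≤ j ∧ p ∈ A j with hAp
  set Bp : ℕ → Prop := fun p => ∃ j, j₀ ≤ j ∧ p ∈ B j with hBp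
  set M : ℕ → Prop := fun m => ∃ j, j₀ ≤ j ∧ ∃ p ∈ A j, ∃ q ∈ B j, m = p * q with hM
  have hdisjAB : ∀ p, Ap p → ¬ Bp p := by
    rintro p ⟨j, hj, hp⟩ ⟨k, hk, hp'⟩
    have := hjeq j k hj hk p (Or.inl hp) (Or.inr hp')
    subst this
    exact Finset.disjoint_left.1 (hdisj j hj) hp hp'
  set ρ₀ : ℕ → ℤ := fun p => if Ap p then r p else t - r p with hρ₀
  have hQ : ∀ p : ℕ, (Ap p ∨ Bp p) → p.Prime ∧ (p : ℤ) ∣ ρ₀ p ^ 2 - t * ρ₀ p + c ∧
      ¬ (p : ℤ) ∣ t ^ 2 - 4 * c := by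
    intro p hp
    have key : ∃ j, j₀ ≤ j ∧ (p ∈ A j ∨ p ∈ B j) := by
      rcases hp with ⟨j, hj, h⟩ | ⟨j, hj, h⟩
      · exact ⟨j, hj, Or.inl h⟩
      · exact ⟨j, hj, Or.inr h⟩
    obtain ⟨j, hj, h⟩ := key
    obtain ⟨h1, -, h3, -, -, h6, -, -⟩ := hfacts j hj p h
    refine ⟨h1, ?_, h3⟩
    simp only [hρ₀]
    split_ifs
    · exact h6
    · exact root_conj h6
  have hex := rho_exists ρ₀ (fun p => Ap p ∨ Bp p) hQ
  set ρ : ℕ → ℤ := fun d => if h : Sm Ap Bp d then (hex d h.1 h.2).choose else 0 with hρ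
  have hρ1 : ∀ d, Sm Ap Bp d → (d : ℤ) ∣ ρ d ^ 2 - t * ρ d + c ∧
      ∀ p : ℕ, p.Prime → p ∣ d → (p : ℤ) ∣ ρ d - ρ₀ p := by
    intro d h
    have e : ρ d = (hex d h.1 h.2).choose := by simp only [hρ]; rw [dif_pos h]
    rw [e]
    exact (hex d h.1 h.2).choose_spec
  have hvex : ∀ m, ∃ v : Qd t c, M m → nm v = m ∧ lat m (ρ m) v := by
    intro m
    by_cases hm : M m
    swap
    · exact ⟨0, fun h => absurd h hm⟩
    obtain ⟨j, hj, p, hp, q, hq, rfl⟩ := hm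
    obtain ⟨p1, p2, p3, p4, p5, p6, p7, p8⟩ := hfacts j hj p (Or.inl hp)
    obtain ⟨q1, q2, q3, q4, q5, q6, q7, q8⟩ := hfacts j hj q (Or.inr hq)
    have hty := htype j hj p hp q hq
    simp only [Prod.mk.injEq] at hty
    obtain ⟨t1, t2, t3⟩ := hty
    have ha0 : (0 : ℤ) < a p := by exact_mod_cast p5
    rw [← t1] at t2 t3 q4 q8
    have d1 : (a p : ℤ) ∣ (z p).re - (z q).re := by
      have h1 := Int.emod_nonneg (z p).re ha0.ne'
      have h2 := Int.emod_nonneg (z q).re ha0.ne'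
      have h3 : (z p).re % (a p : ℤ) = (z q).re % (a p : ℤ) := by omega
      exact Int.ModEq.dvd (show (z q).re ≡ (z p).re [ZMOD (a p : ℤ)] from h3.symm)
    have d2 : (a p : ℤ) ∣ (z p).im - (z q).im := by
      have h1 := Int.emod_nonneg (z p).im ha0.ne'
      have h2 := Int.emod_nonneg (z q).im ha0.ne'
      have h3 : (z p).im % (a p : ℤ) = (z q).im % (a p : ℤ) := by omega
      exact Int.ModEq.dvd (show (z q).im ≡ (z p).im [ZMOD (a p : ℤ)] from h3.symm)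
    obtain ⟨v, hv1, hv2, hv3⟩ := prod_elem hD p5 p4 q4 p6 q6 p7 q7 p8 q8 d1 d2
    refine ⟨v, fun _ => ⟨hv1, ?_⟩⟩
    have hAq : Ap p := ⟨j, hj, hp⟩
    have hBq : Bp q := ⟨j, hj, hq⟩
    have hSm : Sm Ap Bp (p * q) := by
      refine ⟨Nat.mul_ne_zero p1.ne_zero q1.ne_zero, ?_⟩
      intro l hl hld
      rcases (Nat.Prime.dvd_mul hl).1 hld with h | h
      · rw [(Nat.prime_dvd_prime_iff_eq hl p1).1 h]; exact Or.inl hAq
      · rw [(Nat.prime_dvd_prime_iff_eq hl q1).1 h]; exact Or.inr hBq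
    obtain ⟨-, hr2⟩ := hρ1 _ hSm
    have e1 := hr2 p p1 (dvd_mul_right p q)
    have e2 := hr2 q q1 (dvd_mul_left q p)
    have e3 : ρ₀ p = r p := by simp only [hρ₀]; rw [if_pos hAq]
    have e4 : ρ₀ q = t - r q := by
      simp only [hρ₀]; rw [if_neg (fun h => hdisjAB q h hBq)]
    rw [e3] at e1
    rw [e4] at e2
    have f1 : (p : ℤ) ∣ v.re + ρ (p * q) * v.im := by
      have : v.re + ρ (p * q) * v.im = (v.re + r p * v.im) + (ρ (p * q) - r p) * v.im := by ring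
      rw [this]
      exact dvd_add hv2 (e1.mul_right _)
    have f2 : (q : ℤ) ∣ v.re + ρ (p * q) * v.im := by
      have : v.re + ρ (p * q) * v.im = (v.re + (t - r q) * v.im) +
        (ρ (p * q) - (t - r q)) * v.im := by ring
      rw [this]
      exact dvd_add hv3 (e2.mul_right _)
    have hne : p ≠ q := by
      rintro rfl
      exact hdisjAB p hAq hBq
    have hcop : IsCoprime (p : ℤ) (q : ℤ) := by
      rw [Nat.isCoprime_iff_coprime]
      exact (Nat.coprime_primes p1 q1).2 hne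
    show ((p * q : ℕ) : ℤ) ∣ v.re + ρ (p * q) * v.im
    push_cast
    exact hcop.mul_dvd f1 f2
  choose ϖ hϖ using hvex
  refine ⟨Ap, Bp, M, 2, ρ, ϖ, ?_⟩
  refine
    { pos := by norm_num
      prA := ?_
      prB := ?_
      disj := hdisjAB
      fac := ?_
      root := fun d hd => (hρ1 d hd).1
      compat := ?_
      elt := hϖ
      rich := ?_ }
  · rintro p ⟨j, hj, hp⟩
    obtain ⟨h1, h2, h3, -⟩ := hfacts j hj p (Or.inl hp)
    exact ⟨h1, h2, h3⟩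
  · rintro p ⟨j, hj, hp⟩
    obtain ⟨h1, h2, h3, -⟩ := hfacts j hj p (Or.inr hp)
    exact ⟨h1, h2, h3⟩
  · rintro m ⟨j, hj, p, hp, q, hq, rfl⟩
    refine ⟨p, q, ⟨j, hj, hp⟩, ⟨j, hj, hq⟩, rfl, ?_, ?_⟩
    · obtain ⟨h1, -, -, h4, h5⟩ := hAB j hj p (Or.inl hp)
      obtain ⟨g1, -, -, g4, g5⟩ := hAB j hj q (Or.inr hq)
      have hp0 : (0 : ℝ) < p := by exact_mod_cast h1.pos
      have hq0 : (0 : ℝ) < q := by exact_mod_cast g1.pos
      have : Real.log p ≤ Real.log ((q : ℝ) ^ 2) := by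
        rw [Real.log_pow]
        push_cast
        rw [pow_succ] at h5
        linarith
      have := (Real.log_le_log_iff hp0 (by positivity)).1 this
      exact_mod_cast this
    · obtain ⟨h1, -, -, h4, h5⟩ := hAB j hj p (Or.inl hp)
      obtain ⟨g1, -, -, g4, g5⟩ := hAB j hj q (Or.inr hq)
      have hp0 : (0 : ℝ) < p := by exact_mod_cast h1.pos
      have hq0 : (0 : ℝ) < q := by exact_mod_cast g1.pos
      have : Real.log q ≤ Real.log ((p : ℝ) ^ 2) := by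
        rw [Real.log_pow]
        push_cast
        rw [pow_succ] at g5
        linarith
      have := (Real.log_le_log_iff hq0 (by positivity)).1 this
      exact_mod_cast this
  · intro d e he hde
    have hd : Sm Ap Bp d := by
      refine ⟨fun h => he.1 (by rw [h] at hde; exact Nat.eq_zero_of_zero_dvd hde), ?_⟩
      intro p hp hpd
      exact he.2 p hp (hpd.trans hde)
    obtain ⟨h1, h2⟩ := hρ1 d hd
    obtain ⟨h3, h4⟩ := hρ1 e he
    refine rho_unique ρ₀ (fun p hp hpd => (hQ p (hd.2 p hp hpd)).2) ?_ h1 ?_ h2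
    · exact (Int.natCast_dvd_natCast.2 hde).trans h3
    · intro p hp hpd
      exact h4 p hp (hpd.trans hde)
  · refine rich_of M A B j₀ w hw ?_ hdisj hAw hBw ?_
    · intro j hj p hp
      obtain ⟨h1, -, -, h4, h5⟩ := hAB j hj p hp
      exact ⟨h1, h4, h5⟩
    · intro j hj p hp q hq
      exact ⟨j, hj, p, hp, q, hq, rfl⟩

end Pool.Agent.W573.GA
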