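import Pool.Agent.H970R2.X.Rap

/-! Project GA (helper78), task GA-10 (helper573): analytic part, the blocks. -/

set_option autoImplicit false

namespace Pool.Agent.W573.GA

open Finset
open Pool.Agent.H970R2.X Pool.Agent.H376R2.MR

lemma split_sum (f : ℕ → ℝ) (δ : ℝ) (hδ : 0 ≤ δ) (S : Finset ℕ)
    (hf : ∀ x ∈ S, 0 ≤ f x ∧ f x ≤ δ) : ∃ A ⊆ S, |∑ x ∈ A, f x - ∑ x ∈ S \ A, f x| ≤ δ := by
  induction S using Finset.induction_on with
  | empty => exact ⟨∅, subset_rfl, by simpa using hδ⟩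
  | insert x S hx ih =>
    obtain ⟨A, hA, hle⟩ := ih (fun y hy => hf y (mem_insert_of_mem hy))
    have hfx := hf x (mem_insert_self x S)
    have hxA : x ∉ A := fun h => hx (hA h)
    rw [abs_le] at hle
    rcases le_total (∑ x ∈ A, f x) (∑ x ∈ S \ A, f x) with h | h
    · refine ⟨insert x A, insert_subset_insert x hA, ?_⟩
      have e1 : insert x S \ insert x A = S \ A := by
        ext y
        simp only [mem_sdiff, mem_insert, not_or]
        constructor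
        · rintro ⟨h1 | h1, h2, h3⟩
          · exact absurd h1 h2
          · exact ⟨h1, h3⟩
        · rintro ⟨h1, h2⟩
          exact ⟨Or.inr h1, fun h3 => hx (h3 ▸ h1), h2⟩
      rw [e1, sum_insert hxA, abs_le]
      constructor <;> linarith
    · refine ⟨A, hA.trans (subset_insert x S), ?_⟩
      have e1 : insert x S \ A = insert x (S \ A) := by
        ext y
        simp only [mem_sdiff, mem_insert]
        constructor
        · rintro ⟨h1 | h1, h2⟩
          · exact Or.inl h1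
          · exact Or.inr ⟨h1, h2⟩
        · rintro (h1 | ⟨h1, h2⟩)
          · exact ⟨Or.inl h1, h1 ▸ hxA⟩
          · exact ⟨Or.inr h1, h2⟩
      have hxS : x ∉ S \ A := fun h => hx (mem_sdiff.1 h).1
      rw [e1, sum_insert hxS, abs_le]
      constructor <;> linarith

lemma mem_cellP1 {P : ℕ → Prop} {v p : ℕ} (h : p ∈ cellP P 1 v) :
    p.Prime ∧ P p ∧ (v : ℝ) ≤ Real.log p ∧ Real.log p < (v : ℝ) + 1 := by
  simp only [cellP, cell, mem_filter] at h
  obtain ⟨⟨-, h1, h2, h3⟩, h4⟩ := h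
  refine ⟨h1, h4, ?_, ?_⟩
  · simpa using h2
  · simpa using h3

lemma block {T : Type*} [DecidableEq T] (P : ℕ → Prop) (c : ℝ) (hc : 0 < c) (v₀ : ℕ)
    (h : ∀ v : ℕ, v₀ ≤ v → c / v ≤ mmp P 1 v) (B₀ : ℕ) (τ : ℕ → T) (U : Finset T)
    (hU : ∀ p : ℕ, p.Prime → P p → B₀ < p → τ p ∈ U) :
    ∃ w : ℝ, 0 < w ∧ ∃ j₀ : ℕ, ∀ j : ℕ, j₀ ≤ j → ∃ A B : Finset ℕ,
      (∀ p : ℕ, p ∈ A ∨ p ∈ B → p.Prime ∧ P p ∧ B₀ < p ∧ (2 : ℝ) ^ j ≤ Real.log p ∧
        Real.log p < (2 : ℝ) ^ (j + 1)) ∧ Disjoint A B ∧ (∀ p ∈ A, ∀ q ∈ B, τ p = τ q) ∧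
      w ≤ ∑ p ∈ A, 1 / (p : ℝ) ∧ w ≤ ∑ p ∈ B, 1 / (p : ℝ) := by
  classical
  set n : ℝ := (U.card : ℝ) with hn
  set b : ℝ := c / (2 * (n + 1)) with hb
  have hn0 : 0 ≤ n := by positivity
  have hb0 : 0 < b := by positivity
  obtain ⟨j₁, hj₁⟩ := exists_nat_gt (2 / b)
  refine ⟨b / 4, by positivity, v₀ + B₀ + j₁ + 1, ?_⟩
  intro j hj
  have hjpow : j < 2 ^ j := Nat.lt_two_pow_self
  have hjR : (j : ℝ) < 2 ^ j := by exact_mod_cast hjpow
  set I := Ico (2 ^ j) (2 ^ (j + 1)) with hI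
  set S := I.biUnion (fun v => cellP P 1 v) with hS
  have hSmem : ∀ p ∈ S, p.Prime ∧ P p ∧ B₀ < p ∧ (2 : ℝ) ^ j ≤ Real.log p ∧
      Real.log p < (2 : ℝ) ^ (j + 1) := by
    intro p hp
    rw [hS, mem_biUnion] at hp
    obtain ⟨v, hv, hp⟩ := hp
    obtain ⟨h1, h2, h3, h4⟩ := mem_cellP1 hp
    rw [hI, mem_Ico] at hv
    have h5 : (2 : ℝ) ^ j ≤ v := by exact_mod_cast hv.1
    have h6 : (v : ℝ) + 1 ≤ 2 ^ (j + 1) := by exact_mod_cast hv.2
    refine ⟨h1, h2, ?_, h5.trans h3, lt_of_lt_of_le h4 h6⟩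
    have hp0 : (0 : ℝ) < p := by exact_mod_cast h1.pos
    have h7 : Real.log p ≤ p := (Real.log_le_sub_one_of_pos hp0).trans (by linarith)
    have h8 : (B₀ : ℝ) < p := by
      have : (B₀ : ℝ) ≤ j := by exact_mod_cast (by omega : B₀ ≤ j)
      linarith
    exact_mod_cast h8
  have hdisj : Set.PairwiseDisjoint (I : Set ℕ) (fun v => cellP P 1 v) := by
    intro v _ v' _ hne
    rw [Function.onFun, Finset.disjoint_left]
    intro p hp hp'
    obtain ⟨-, -, h3, h4⟩ := mem_cellP1 hp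
    obtain ⟨-, -, h5, h6⟩ := mem_cellP1 hp'
    apply hne
    have h7 : (v : ℝ) < v' + 1 := by linarith
    have h8 : (v' : ℝ) < v + 1 := by linarith
    have h9 : v < v' + 1 := by exact_mod_cast h7
    have h10 : v' < v + 1 := by exact_mod_cast h8
    omega
  have hsum : c / 2 ≤ ∑ p ∈ S, 1 / (p : ℝ) := by
    rw [hS, sum_biUnion hdisj]
    have h1 : ∀ v ∈ I, c / 2 ^ (j + 1) ≤ ∑ p ∈ cellP P 1 v, 1 / (p : ℝ) := by
      intro v hv
      rw [hI, mem_Ico] at hv
      have h2 : v₀ ≤ v := by omega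
      have h3 := h v h2
      unfold mmp at h3
      refine le_trans ?_ h3
      have h4 : (v : ℝ) ≤ 2 ^ (j + 1) := by exact_mod_cast hv.2.le
      have h5 : (0 : ℝ) < v := by
        have : 0 < v := lt_of_lt_of_le (by positivity) hv.1
        exact_mod_cast this
      exact div_le_div_of_nonneg_left hc.le h5 h4
    have h6 := sum_le_sum h1
    rw [sum_const, hI, Nat.card_Ico, nsmul_eq_mul] at h6
    have h7 : ((2 ^ (j + 1) - 2 ^ j : ℕ) : ℝ) = 2 ^ j := by
      have : 2 ^ (j + 1) - 2 ^ j = 2 ^ j := by rw [pow_succ]; omega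
      rw [this]; push_cast; ring
    rw [h7] at h6
    have h8 : (2 : ℝ) ^ j * (c / 2 ^ (j + 1)) = c / 2 := by
      rw [pow_succ]; field_simp
    rw [h8] at h6
    exact h6
  -- choose the type
  have hmaps : ∀ p ∈ S, τ p ∈ U := fun p hp => by
    obtain ⟨h1, h2, h3, -⟩ := hSmem p hp
    exact hU p h1 h2 h3
  have hUne : U.Nonempty := by
    by_contra hne
    rw [not_nonempty_iff_eq_empty] at hne
    have : S = ∅ := by
      rw [eq_empty_iff_forall_notMem]
      intro p hp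
      have := hmaps p hp
      rw [hne] at this
      exact absurd this (notMem_empty _)
    rw [this, sum_empty] at hsum
    linarith
  have hcardb : U.card • b ≤ ∑ p ∈ S, 1 / (p : ℝ) := by
    rw [nsmul_eq_mul, ← hn]
    refine le_trans ?_ hsum
    rw [hb]
    have : n * (c / (2 * (n + 1))) = (n / (n + 1)) * (c / 2) := by field_simp
    rw [this]
    have h1 : n / (n + 1) ≤ 1 := by rw [div_le_one (by linarith)]; linarith
    nlinarith
  obtain ⟨y, -, hy⟩ := Finset.exists_le_sum_fiber_of_maps_to_of_nsmul_le_sum hmaps hUne hcardb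
  set δ : ℝ := 1 / (2 : ℝ) ^ j with hδ
  have hδ0 : 0 ≤ δ := by positivity
  have hδb : δ ≤ b / 2 := by
    rw [hδ, div_le_iff₀ (by positivity)]
    have h1 : (j₁ : ℝ) ≤ j := by exact_mod_cast (by omega : j₁ ≤ j)
    have h2 : 2 / b < 2 ^ j := by linarith
    rw [div_lt_iff₀ hb0] at h2
    linarith
  set Sy := S.filter (fun p => τ p = y) with hSy
  obtain ⟨A, hA, hle⟩ := split_sum (fun p => 1 / (p : ℝ)) δ hδ0 Sy (by
    intro p hp
    have hpS : p ∈ S := (mem_filter.1 hp).1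
    obtain ⟨h1, -, -, h4, -⟩ := hSmem p hpS
    have hp0 : (0 : ℝ) < p := by exact_mod_cast h1.pos
    refine ⟨by positivity, ?_⟩
    rw [hδ]
    have h7 : Real.log p ≤ p := (Real.log_le_sub_one_of_pos hp0).trans (by linarith)
    exact one_div_le_one_div_of_le (by positivity) (h4.trans h7))
  have htot : ∑ p ∈ Sy \ A, 1 / (p : ℝ) + ∑ p ∈ A, 1 / (p : ℝ) = ∑ p ∈ Sy, 1 / (p : ℝ) :=
    sum_sdiff hA
  rw [abs_le] at hle
  refine ⟨A, Sy \ A, ?_, disjoint_sdiff, ?_, ?_, ?_⟩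
  · rintro p (hp | hp)
    · exact hSmem p (mem_filter.1 (hA hp)).1
    · exact hSmem p (mem_filter.1 (mem_sdiff.1 hp).1).1
  · intro p hp q hq
    rw [(mem_filter.1 (hA hp)).2, (mem_filter.1 (mem_sdiff.1 hq).1).2]
  · linarith
  · linarith

end Pool.Agent.W573.GA
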