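import Pool.Agent.W573.GA.Ele1
import Pool.Agent.W573.GA.Ele2

/-! Project GA (helper78), task GA-10 (helper573): assembly of `S_ELE`. -/

set_option autoImplicit false

namespace Pool.Agent.W573.GA

open Finset
open Pool.Agent.W78.GA

variable {t c : ℤ}

lemma log_mul_bounds {A B : Finset ℕ} {j : ℕ}
    (hp : ∀ p : ℕ, p ∈ A ∨ p ∈ B → p.Prime ∧ (2 : ℝ) ^ j ≤ Real.log p ∧
      Real.log p < (2 : ℝ) ^ (j + 1)) {m : ℕ}
    (hm : m ∈ (A ×ˢ B).image (fun x => x.1 * x.2)) :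
    (2 : ℝ) ^ (j + 1) ≤ Real.log m ∧ Real.log m < (2 : ℝ) ^ (j + 2) ∧ 0 < m := by
  rw [mem_image] at hm
  obtain ⟨⟨p, q⟩, hx, rfl⟩ := hm
  rw [mem_product] at hx
  obtain ⟨h1, h2, h3⟩ := hp p (Or.inl hx.1)
  obtain ⟨h4, h5, h6⟩ := hp q (Or.inr hx.2)
  have hp0 : (p : ℝ) ≠ 0 := by exact_mod_cast h1.ne_zero
  have hq0 : (q : ℝ) ≠ 0 := by exact_mod_cast h4.ne_zero
  have e : Real.log ((p * q : ℕ) : ℝ) = Real.log p + Real.log q := by
    push_cast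
    exact Real.log_mul hp0 hq0
  refine ⟨?_, ?_, Nat.mul_pos h1.pos h4.pos⟩
  · show (2 : ℝ) ^ (j + 1) ≤ Real.log ((p * q : ℕ) : ℝ)
    rw [e, pow_succ]; linarith
  · show Real.log ((p * q : ℕ) : ℝ) < (2 : ℝ) ^ (j + 2)
    rw [e, pow_succ]; linarith

lemma rich_of (M : ℕ → Prop) (A B : ℕ → Finset ℕ) (j₀ : ℕ) (w : ℝ) (hw : 0 < w)
    (hp : ∀ j, j₀ ≤ j → ∀ p : ℕ, p ∈ A j ∨ p ∈ B j → p.Prime ∧ (2 : ℝ) ^ j ≤ Real.log p ∧
      Real.log p < (2 : ℝ) ^ (j + 1))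
    (hd : ∀ j, j₀ ≤ j → Disjoint (A j) (B j))
    (hA : ∀ j, j₀ ≤ j → w ≤ ∑ p ∈ A j, 1 / (p : ℝ))
    (hB : ∀ j, j₀ ≤ j → w ≤ ∑ p ∈ B j, 1 / (p : ℝ))
    (hM : ∀ j, j₀ ≤ j → ∀ p ∈ A j, ∀ q ∈ B j, M (p * q)) :
    ∃ c₀ : ℝ, 0 < c₀ ∧ ∃ C : ℝ, ∀ H v₀ v₁ : ℕ, 1 ≤ H → H ≤ v₀ → v₀ ≤ v₁ →
      c₀ * Real.log ((v₁ : ℝ) / v₀) - C ≤ ∑ v ∈ Ico v₀ v₁, mE M H v := by
  classical
  have hl2 : 0 < Real.log 2 := Real.log_pos (by norm_num)
  refine ⟨w ^ 2 / Real.log 2, by positivity, w ^ 2 * (j₀ + 4), ?_⟩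
  intro H v₀ v₁ hH hv₀ hv₁
  have hH0 : (0 : ℝ) < H := by exact_mod_cast hH
  have hv0R : (0 : ℝ) < v₀ := by exact_mod_cast lt_of_lt_of_le hH hv₀
  have hv1R : (0 : ℝ) < v₁ := by exact_mod_cast lt_of_lt_of_le hH (hv₀.trans hv₁)
  have hn0 : v₀ / H ≠ 0 := by
    have := Nat.div_pos hv₀ (by omega : 0 < H); omega
  have hn1 : v₁ / H ≠ 0 := by
    have := Nat.div_pos (hv₀.trans hv₁) (by omega : 0 < H); omega
  set a := j₀ + Nat.log 2 (v₀ / H) + 1 with ha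
  set b := Nat.log 2 (v₁ / H) with hb
  set J := Ico a (b - 1) with hJ
  have hJ0 : ∀ j ∈ J, j₀ ≤ j ∧ v₀ ≤ H * 2 ^ (j + 1) ∧ H * 2 ^ (j + 2) ≤ v₁ := by
    intro j hj
    rw [hJ, mem_Ico] at hj
    refine ⟨by omega, ?_, ?_⟩
    · have h1 : v₀ < H * (v₀ / H + 1) := Nat.lt_mul_div_succ v₀ (by omega)
      have h2 : v₀ / H < 2 ^ (Nat.log 2 (v₀ / H) + 1) := Nat.lt_pow_succ_log_self (by norm_num) _
      have h3 : 2 ^ (Nat.log 2 (v₀ / H) + 1) ≤ 2 ^ (j + 1) :=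
        Nat.pow_le_pow_right (by norm_num) (by omega)
      have h4 : H * (v₀ / H + 1) ≤ H * 2 ^ (j + 1) := Nat.mul_le_mul_left H (by omega)
      omega
    · have h1 : 2 ^ b ≤ v₁ / H := Nat.pow_log_le_self 2 hn1
      have h2 : 2 ^ (j + 2) ≤ 2 ^ b := Nat.pow_le_pow_right (by norm_num) (by omega)
      calc H * 2 ^ (j + 2) ≤ H * (v₁ / H) := Nat.mul_le_mul_left H (h2.trans h1)
        _ ≤ v₁ := Nat.mul_div_le v₁ H
  set Xj : ℕ → Finset ℕ := fun j => (A j ×ˢ B j).image (fun x => x.1 * x.2) with hXj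
  set X := J.biUnion Xj with hX
  have hXd : Set.PairwiseDisjoint (J : Set ℕ) Xj := by
    intro j hj k hk hne
    rw [Function.onFun, Finset.disjoint_left]
    intro m hm hm'
    obtain ⟨h1, h2, -⟩ := log_mul_bounds (hp j (hJ0 j hj).1) hm
    obtain ⟨h3, h4, -⟩ := log_mul_bounds (hp k (hJ0 k hk).1) hm'
    apply hne
    have h5 : (2 : ℝ) ^ (j + 1) < 2 ^ (k + 2) := by linarith
    have h6 : (2 : ℝ) ^ (k + 1) < 2 ^ (j + 2) := by linarith
    have h7 : j + 1 < k + 2 := (pow_lt_pow_iff_right₀ (by norm_num : (1:ℝ) < 2)).1 h5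
    have h8 : k + 1 < j + 2 := (pow_lt_pow_iff_right₀ (by norm_num : (1:ℝ) < 2)).1 h6
    omega
  have hsumX : w ^ 2 * (J.card : ℝ) ≤ ∑ m ∈ X, 1 / (m : ℝ) := by
    rw [hX, sum_biUnion hXd]
    have h1 : ∀ j ∈ J, w ^ 2 ≤ ∑ m ∈ Xj j, 1 / (m : ℝ) := by
      intro j hj
      have hj0 := (hJ0 j hj).1
      have hinj : Set.InjOn (fun x : ℕ × ℕ => x.1 * x.2) (A j ×ˢ B j : Finset (ℕ × ℕ)) := by
        rintro ⟨p, q⟩ h1 ⟨p', q'⟩ h2 heq
        rw [mem_coe, mem_product] at h1 h2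
        simp only at heq h1 h2
        have hpp := (hp j hj0 p (Or.inl h1.1)).1
        have hqq := (hp j hj0 q (Or.inr h1.2)).1
        have hpp' := (hp j hj0 p' (Or.inl h2.1)).1
        have hqq' := (hp j hj0 q' (Or.inr h2.2)).1
        have h3 : p ∣ p' * q' := heq ▸ dvd_mul_right p q
        have h4 : p = p' := by
          rcases (Nat.Prime.dvd_mul hpp).1 h3 with h | h
          · exact (Nat.prime_dvd_prime_iff_eq hpp hpp').1 h
          · have := (Nat.prime_dvd_prime_iff_eq hpp hqq').1 h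
            exfalso
            exact Finset.disjoint_left.1 (hd j hj0) h1.1 (this ▸ h2.2)
        subst h4
        have := Nat.eq_of_mul_eq_mul_left hpp.pos heq
        rw [this]
      simp only [hXj]
      rw [sum_image hinj, sum_product]
      have h2 : ∑ x ∈ A j, ∑ y ∈ B j, 1 / (((x, y).1 * (x, y).2 : ℕ) : ℝ) =
          (∑ x ∈ A j, 1 / (x : ℝ)) * ∑ y ∈ B j, 1 / (y : ℝ) := by
        rw [sum_mul_sum]
        apply sum_congr rfl
        intro x _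
        apply sum_congr rfl
        intro y _
        push_cast
        rw [one_div_mul_one_div]
      rw [h2, sq]
      exact mul_le_mul (hA j hj0) (hB j hj0) hw.le (hw.le.trans (hA j hj0))
    have h2 := sum_le_sum h1
    rw [sum_const, nsmul_eq_mul] at h2
    linarith
  have hXsub : X ⊆ (Ico v₀ v₁).biUnion (fun v => cellM M H v) := by
    intro m hm
    rw [hX, mem_biUnion] at hm
    obtain ⟨j, hj, hm⟩ := hm
    obtain ⟨hj0, hj1, hj2⟩ := hJ0 j hj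
    obtain ⟨h1, h2, h3⟩ := log_mul_bounds (hp j hj0) hm
    have hMm : M m := by
      simp only [hXj, mem_image] at hm
      obtain ⟨⟨p, q⟩, hx, rfl⟩ := hm
      rw [mem_product] at hx
      exact hM j hj0 p hx.1 q hx.2
    have hm0 : (0 : ℝ) < m := by exact_mod_cast h3
    have hlog0 : 0 ≤ Real.log m := le_trans (by positivity) h1
    set v := ⌊(H : ℝ) * Real.log m⌋₊ with hv
    have hv1 : (v : ℝ) ≤ H * Real.log m := Nat.floor_le (by positivity)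
    have hv2 : (H : ℝ) * Real.log m < v + 1 := Nat.lt_floor_add_one _
    rw [mem_biUnion]
    refine ⟨v, ?_, ?_⟩
    · rw [mem_Ico]
      constructor
      · apply Nat.le_floor
        have : (v₀ : ℝ) ≤ H * 2 ^ (j + 1) := by exact_mod_cast hj1
        exact this.trans (mul_le_mul_of_nonneg_left h1 hH0.le)
      · have h5 : (H : ℝ) * 2 ^ (j + 2) ≤ v₁ := by exact_mod_cast hj2
        have h6 : (H : ℝ) * Real.log m < v₁ := lt_of_lt_of_le (mul_lt_mul_of_pos_left h2 hH0) h5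
        have h7 : (v : ℝ) < v₁ := lt_of_le_of_lt hv1 h6
        exact_mod_cast h7
    · simp only [cellM, mem_filter, mem_range]
      have h5 : Real.log m < ((v : ℝ) + 1) / H := by
        rw [lt_div_iff₀ hH0]; linarith
      refine ⟨?_, hMm, ?_, h5⟩
      · rw [Nat.lt_succ_iff]
        apply Nat.le_floor
        have := Real.exp_le_exp.2 h5.le
        rwa [Real.exp_log hm0] at this
      · rw [div_le_iff₀ hH0]; linarith
  have hcd : Set.PairwiseDisjoint ((Ico v₀ v₁ : Finset ℕ) : Set ℕ) (fun v => cellM M H v) := by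
    intro v _ v' _ hne
    rw [Function.onFun, Finset.disjoint_left]
    intro m hm hm'
    simp only [cellM, mem_filter, mem_range] at hm hm'
    apply hne
    have h1 : (v : ℝ) / H < ((v' : ℝ) + 1) / H := lt_of_le_of_lt hm.2.2.1 hm'.2.2.2
    have h2 : (v' : ℝ) / H < ((v : ℝ) + 1) / H := lt_of_le_of_lt hm'.2.2.1 hm.2.2.2
    rw [div_lt_div_iff_of_pos_right hH0] at h1 h2
    have h3 : v < v' + 1 := by exact_mod_cast h1
    have h4 : v' < v + 1 := by exact_mod_cast h2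
    omega
  have hfin : ∑ m ∈ X, 1 / (m : ℝ) ≤ ∑ v ∈ Ico v₀ v₁, mE M H v := by
    unfold mE
    rw [← sum_biUnion hcd]
    exact sum_le_sum_of_subset_of_nonneg hXsub (fun _ _ _ => by positivity)
  refine le_trans ?_ (hsumX.trans hfin)
  -- the count
  have hJc : (b : ℝ) - 1 - a ≤ (J.card : ℝ) := by
    rw [hJ, Nat.card_Ico]
    have : b ≤ (b - 1 - a) + a + 1 := by omega
    have : (b : ℝ) ≤ ((b - 1 - a : ℕ) : ℝ) + a + 1 := by exact_mod_cast this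
    linarith
  have hb1 : Real.log ((v₁ : ℝ) / H) ≤ ((b : ℝ) + 2) * Real.log 2 := by
    have h1 : v₁ < H * (v₁ / H + 1) := Nat.lt_mul_div_succ v₁ (by omega)
    have h2 : v₁ / H < 2 ^ (b + 1) := Nat.lt_pow_succ_log_self (by norm_num) _
    have h3 : v₁ ≤ H * 2 ^ (b + 2) := by
      have : v₁ / H + 1 ≤ 2 ^ (b + 2) := by rw [pow_succ]; omega
      exact h1.le.trans (Nat.mul_le_mul_left H this)
    have h4 : (v₁ : ℝ) ≤ H * 2 ^ (b + 2) := by exact_mod_cast h3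
    have h5 : (v₁ : ℝ) / H ≤ 2 ^ (b + 2) := by rw [div_le_iff₀ hH0]; linarith
    have h6 := Real.log_le_log (by positivity) h5
    rw [Real.log_pow] at h6
    push_cast at h6
    exact h6
  have ha1 : ((Nat.log 2 (v₀ / H) : ℕ) : ℝ) * Real.log 2 ≤ Real.log ((v₀ : ℝ) / H) := by
    have h1 : 2 ^ (Nat.log 2 (v₀ / H)) ≤ v₀ / H := Nat.pow_log_le_self 2 hn0
    have h2 : H * 2 ^ (Nat.log 2 (v₀ / H)) ≤ v₀ := (Nat.mul_le_mul_left H h1).trans (Nat.mul_div_le v₀ H)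
    have h4 : (H : ℝ) * 2 ^ (Nat.log 2 (v₀ / H)) ≤ v₀ := by exact_mod_cast h2
    have h5 : (2 : ℝ) ^ (Nat.log 2 (v₀ / H)) ≤ (v₀ : ℝ) / H := by
      rw [le_div_iff₀ hH0]; linarith
    have h6 := Real.log_le_log (by positivity) h5
    rw [Real.log_pow] at h6
    exact h6
  have hlogs : Real.log ((v₁ : ℝ) / v₀) = Real.log ((v₁ : ℝ) / H) - Real.log ((v₀ : ℝ) / H) := by
    rw [Real.log_div hv1R.ne' hv0R.ne', Real.log_div hv1R.ne' hH0.ne',
      Real.log_div hv0R.ne' hH0.ne']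
    ring
  have haR : (a : ℝ) = j₀ + (Nat.log 2 (v₀ / H) : ℕ) + 1 := by rw [ha]; push_cast; ring
  have hkey : Real.log ((v₁ : ℝ) / v₀) ≤ ((b : ℝ) - 1 - a + (j₀ + 4)) * Real.log 2 := by
    rw [hlogs, haR]
    nlinarith
  have hw2 : 0 < w ^ 2 := by positivity
  have h1 : w ^ 2 / Real.log 2 * Real.log ((v₁ : ℝ) / v₀) ≤
      w ^ 2 * ((b : ℝ) - 1 - a + (j₀ + 4)) := by
    rw [div_mul_eq_mul_div, div_le_iff₀ hl2]
    nlinarith
  have h2 : w ^ 2 * ((b : ℝ) - 1 - a) ≤ w ^ 2 * (J.card : ℝ) := mul_le_mul_of_nonneg_left hJc hw2.le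
  nlinarith

end Pool.Agent.W573.GA
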