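import Pool.Agent.W78.GA.Basic

/-! Project GA (helper78), task GA-10 (helper573): arithmetic part. -/

set_option autoImplicit false

namespace Pool.Agent.W573.GA

open Finset
open Pool.Agent.W78.GA

variable {t c : ℤ}

lemma root_exists (hD : t ^ 2 < 4 * c) {p : ℕ} (hp : p.Prime)
    (h1 : p % (4 * (t ^ 2 - 4 * c).natAbs) = 1) : ∃ r : ℤ, (p : ℤ) ∣ r ^ 2 - t * r + c := by
  have : Fact p.Prime := ⟨hp⟩
  have hodd : Odd p := by
    rw [Nat.odd_iff]
    have : p % 2 = (p % (4 * (t ^ 2 - 4 * c).natAbs)) % 2 := by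
      rw [Nat.mod_mod_of_dvd]
      exact ⟨2 * (t ^ 2 - 4 * c).natAbs, by ring⟩
    rw [this, h1]
  have hJ : jacobiSym (t ^ 2 - 4 * c) p = 1 := by
    rw [jacobiSym.mod_right _ hodd, h1, jacobiSym.one_right]
  rw [← jacobiSym.legendreSym.to_jacobiSym] at hJ
  have hne : ((t ^ 2 - 4 * c : ℤ) : ZMod p) ≠ 0 := by
    intro h
    rw [← legendreSym.eq_zero_iff] at h
    rw [h] at hJ
    norm_num at hJ
  obtain ⟨s, hs⟩ := (legendreSym.eq_one_iff p hne).1 hJ
  have h2 : (2 : ZMod p) ≠ 0 := by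
    have : ((2 : ℕ) : ZMod p) ≠ 0 := by
      rw [Ne, ZMod.natCast_eq_zero_iff]
      intro h
      have := (Nat.prime_dvd_prime_iff_eq hp Nat.prime_two).1 h
      rw [this] at hodd
      exact (by decide : ¬ Odd 2) hodd
    simpa using this
  set u : ZMod p := ((t : ZMod p) + s) / 2 with hu
  refine ⟨(u.val : ℤ), ?_⟩
  rw [← ZMod.intCast_zmod_eq_zero_iff_dvd]
  push_cast
  rw [ZMod.natCast_zmod_val]
  push_cast at hs
  have h3 : 2 * u = t + s := by rw [hu]; field_simp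
  have h4 : (2 * u - t) ^ 2 = (t : ZMod p) ^ 2 - 4 * c := by
    rw [h3, hs]; ring
  have h5 : (4 : ZMod p) * (u ^ 2 - t * u + c) = 0 := by linear_combination h4
  have h6 : (4 : ZMod p) ≠ 0 := by
    have : (4 : ZMod p) = 2 * 2 := by norm_num
    rw [this]
    exact mul_ne_zero h2 h2
  exact (mul_eq_zero.1 h5).resolve_left h6

lemma thue {p : ℕ} (hp : 0 < p) (r : ℤ) : ∃ x y : ℤ, (x ≠ 0 ∨ y ≠ 0) ∧ x ^ 2 ≤ p ∧ y ^ 2 ≤ p ∧
    (p : ℤ) ∣ x + r * y := by
  have : NeZero p := ⟨hp.ne'⟩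
  set k := Nat.sqrt p with hk
  have hcard : (univ : Finset (ZMod p)).card < (range (k + 1) ×ˢ range (k + 1)).card := by
    rw [card_product, card_range, card_univ, ZMod.card]
    exact Nat.lt_succ_sqrt p
  obtain ⟨a, ha, b, hb, hab, hf⟩ := Finset.exists_ne_map_eq_of_card_lt_of_maps_to hcard
    (f := fun x : ℕ × ℕ => ((x.1 : ℤ) + r * (x.2 : ℤ) : ZMod p)) (fun _ _ => mem_coe.2 (mem_univ _))
  rw [mem_product, mem_range, mem_range] at ha hb
  have hkp : (k : ℤ) * k ≤ p := by exact_mod_cast Nat.sqrt_le p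
  have hbd : ∀ m n : ℕ, m < k + 1 → n < k + 1 → ((m : ℤ) - n) ^ 2 ≤ p := by
    intro m n hm hn
    have h1 : (m : ℤ) ≤ k := by exact_mod_cast Nat.lt_succ_iff.1 hm
    have h2 : (n : ℤ) ≤ k := by exact_mod_cast Nat.lt_succ_iff.1 hn
    have h3 : (0 : ℤ) ≤ m := by positivity
    have h4 : (0 : ℤ) ≤ n := by positivity
    have h5 : |(m : ℤ) - n| ≤ k := by
      rw [abs_le]; constructor <;> linarith
    have h6 : ((m : ℤ) - n) ^ 2 ≤ (k : ℤ) ^ 2 := sq_le_sq' (by linarith [neg_abs_le ((m : ℤ) - n)]) (le_trans (le_abs_self _) h5)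
    nlinarith
  refine ⟨(a.1 : ℤ) - b.1, (a.2 : ℤ) - b.2, ?_, hbd _ _ ha.1 hb.1, hbd _ _ ha.2 hb.2, ?_⟩
  · by_contra h
    push Not at h
    apply hab
    ext
    · have := h.1; omega
    · have := h.2; omega
  · rw [← ZMod.intCast_zmod_eq_zero_iff_dvd]
    push_cast at hf ⊢
    linear_combination hf

lemma zp_exists (hD : t ^ 2 < 4 * c) {p : ℕ} (hp : p.Prime) {r : ℤ}
    (hr : (p : ℤ) ∣ r ^ 2 - t * r + c) : ∃ (z : Qd t c) (a : ℕ), lat p r z ∧ nm z = p * a ∧ 1 ≤ a ∧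
      a ≤ 1 + t.natAbs + c.natAbs := by
  obtain ⟨x, y, h0, hx, hy, hd⟩ := thue hp.pos r
  set z : Qd t c := ⟨x, y⟩ with hz
  have hlat : lat p r z := hd
  obtain ⟨a, ha⟩ := nm_mod_lat hD hr hlat
  have hz0 : z ≠ 0 := by
    intro h
    rcases h0 with h0 | h0
    · exact h0 (congrArg QuadraticAlgebra.re h)
    · exact h0 (congrArg QuadraticAlgebra.im h)
  have hpos := nm_pos hD hz0
  have ha1 : 1 ≤ a := by
    rcases Nat.eq_zero_or_pos a with h | h
    · rw [h, mul_zero] at ha; omega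
    · exact h
  refine ⟨z, a, hlat, ha, ha1, ?_⟩
  have h1 : (nm z : ℤ) = x ^ 2 + t * x * y + c * y ^ 2 := nm_cast hD z
  have hp0 : (0 : ℤ) < p := by exact_mod_cast hp.pos
  have hxy : |x * y| ≤ p := by
    have h2 : 2 * |x * y| ≤ x ^ 2 + y ^ 2 := by
      rw [abs_mul]
      nlinarith [sq_nonneg (|x| - |y|), sq_abs x, sq_abs y]
    linarith
  have h3 : t * x * y ≤ |t| * p := by
    calc t * x * y ≤ |t * x * y| := le_abs_self _
      _ = |t| * |x * y| := by rw [mul_assoc, abs_mul]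
      _ ≤ |t| * p := mul_le_mul_of_nonneg_left hxy (abs_nonneg t)
  have h4 : c * y ^ 2 ≤ |c| * p := by
    calc c * y ^ 2 ≤ |c| * y ^ 2 := mul_le_mul_of_nonneg_right (le_abs_self c) (sq_nonneg y)
      _ ≤ |c| * p := mul_le_mul_of_nonneg_left hy (abs_nonneg c)
  have h5 : (p : ℤ) * a ≤ p * (1 + |t| + |c|) := by
    have : (nm z : ℤ) = (p : ℤ) * a := by rw [ha]; push_cast; ring
    rw [← this, h1]
    nlinarith
  have h6 : (a : ℤ) ≤ 1 + |t| + |c| := le_of_mul_le_mul_left h5 hp0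
  have h7 : (a : ℤ) ≤ ((1 + t.natAbs + c.natAbs : ℕ) : ℤ) := by
    push_cast
    exact h6
  exact_mod_cast h7

lemma lat_star {d : ℕ} {r : ℤ} {u : Qd t c} (h : lat d r u) : lat d (t - r) (star u) := by
  unfold lat at *
  simp only [QuadraticAlgebra.re_star, QuadraticAlgebra.im_star]
  have : u.re + t * u.im + (t - r) * -u.im = u.re + r * u.im := by ring
  rw [this]
  exact h

lemma root_conj {d : ℕ} {r : ℤ} (h : (d : ℤ) ∣ r ^ 2 - t * r + c) :
    (d : ℤ) ∣ (t - r) ^ 2 - t * (t - r) + c := by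
  have : (t - r) ^ 2 - t * (t - r) + c = r ^ 2 - t * r + c := by ring
  rw [this]; exact h

lemma lat_of_mul {d a : ℕ} {r : ℤ} {v : Qd t c} (hda : Nat.Coprime d a)
    (h : lat d r ((a : Qd t c) * v)) : lat d r v := by
  unfold lat at *
  simp only [QuadraticAlgebra.re_mul, QuadraticAlgebra.im_mul, QuadraticAlgebra.re_natCast,
    QuadraticAlgebra.im_natCast] at h
  have e : (a : ℤ) * v.re + -c * 0 * v.im + r * ((a : ℤ) * v.im + 0 * v.re + t * 0 * v.im) =
      a * (v.re + r * v.im) := by ring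
  rw [e] at h
  exact (Int.isCoprime_iff_gcd_eq_one.2 (by simpa using hda)).dvd_of_dvd_mul_left h

/-- the product element -/
lemma prod_elem (hD : t ^ 2 < 4 * c) {p q a : ℕ} (ha : 1 ≤ a) (hpa : Nat.Coprime p a)
    (hqa : Nat.Coprime q a) {r s : ℤ} (hr : (p : ℤ) ∣ r ^ 2 - t * r + c)
    (hs : (q : ℤ) ∣ s ^ 2 - t * s + c) {z u : Qd t c} (hz : lat p r z) (hu : lat q s u)
    (hnz : nm z = p * a) (hnu : nm u = q * a) (h1 : (a : ℤ) ∣ z.re - u.re)
    (h2 : (a : ℤ) ∣ z.im - u.im) :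
    ∃ v : Qd t c, nm v = p * q ∧ lat p r v ∧ lat q (t - s) v := by
  have hd : (a : Qd t c) ∣ z - u := natCast_dvd.2 ⟨by simpa using h1, by simpa using h2⟩
  obtain ⟨w, hw⟩ := hd
  have key : z * star u = (a : Qd t c) * (w * star u + (q : Qd t c)) := by
    have e1 : u * star u = ((q * a : ℕ) : Qd t c) := by rw [mul_star_self' hD, hnu]
    have e2 : z = (a : Qd t c) * w + u := by rw [← hw]; ring
    rw [e2]
    have e3 : ((a : Qd t c) * w + u) * star u = (a : Qd t c) * (w * star u) + u * star u := by ring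
    rw [e3, e1]
    push_cast
    ring
  set v : Qd t c := w * star u + (q : Qd t c) with hv
  refine ⟨v, ?_, ?_, ?_⟩
  · have e1 : nm (z * star u) = nm ((a : Qd t c) * v) := by rw [key]
    rw [nm_mul, nm_mul, nm_star, nm_natCast, hnz, hnu] at e1
    have e2 : a ^ 2 * nm v = a ^ 2 * (p * q) := by rw [← e1]; ring
    exact Nat.eq_of_mul_eq_mul_left (by positivity) e2
  · apply lat_of_mul hpa
    rw [← key]
    exact lat_mul_left hr _ hz
  · apply lat_of_mul hqa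
    rw [← key, mul_comm]
    exact lat_mul_left (root_conj hs) _ (lat_star hu)

/-! ### compatible roots -/

lemma rho_unique {d : ℕ} {x y : ℤ} (ρ₀ : ℕ → ℤ)
    (hQ : ∀ p : ℕ, p.Prime → p ∣ d → (p : ℤ) ∣ ρ₀ p ^ 2 - t * ρ₀ p + c ∧
      ¬ (p : ℤ) ∣ t ^ 2 - 4 * c)
    (hx : (d : ℤ) ∣ x ^ 2 - t * x + c) (hy : (d : ℤ) ∣ y ^ 2 - t * y + c)
    (hx' : ∀ p : ℕ, p.Prime → p ∣ d → (p : ℤ) ∣ x - ρ₀ p)
    (hy' : ∀ p : ℕ, p.Prime → p ∣ d → (p : ℤ) ∣ y - ρ₀ p) : (d : ℤ) ∣ x - y := by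
  have h1 : (d : ℤ) ∣ (x + y - t) * (x - y) := by
    have : (x + y - t) * (x - y) = (x ^ 2 - t * x + c) - (y ^ 2 - t * y + c) := by ring
    rw [this]
    exact dvd_sub hx hy
  refine IsCoprime.dvd_of_dvd_mul_left ?_ h1
  rw [Int.isCoprime_iff_gcd_eq_one]
  by_contra hne
  obtain ⟨p, hp, hpd⟩ := Nat.exists_prime_and_dvd hne
  have hpd1 : (p : ℤ) ∣ (d : ℤ) :=
    (Int.natCast_dvd_natCast.2 hpd).trans (Int.gcd_dvd_left _ _)
  have hpd2 : (p : ℤ) ∣ x + y - t :=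
    (Int.natCast_dvd_natCast.2 hpd).trans (Int.gcd_dvd_right _ _)
  have hpd' : p ∣ d := by exact_mod_cast hpd1
  obtain ⟨h3, h4⟩ := hQ p hp hpd'
  apply h4
  obtain ⟨e1, he1⟩ := hx' p hp hpd'
  obtain ⟨e2, he2⟩ := hy' p hp hpd'
  obtain ⟨e3, he3⟩ := hpd2
  obtain ⟨e4, he4⟩ := h3
  have h5 : 2 * ρ₀ p - t = p * (e3 - e1 - e2) := by linarith
  refine ⟨(e3 - e1 - e2) * (p * (e3 - e1 - e2)) - 4 * e4, ?_⟩
  have h6 : t ^ 2 - 4 * c = (2 * ρ₀ p - t) ^ 2 - 4 * (ρ₀ p ^ 2 - t * ρ₀ p + c) := by ring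
  rw [h6, he4, h5]
  ring

lemma rho_exists (ρ₀ : ℕ → ℤ) (Q : ℕ → Prop)
    (hQ : ∀ p : ℕ, Q p → p.Prime ∧ (p : ℤ) ∣ ρ₀ p ^ 2 - t * ρ₀ p + c ∧
      ¬ (p : ℤ) ∣ t ^ 2 - 4 * c) :
    ∀ d : ℕ, d ≠ 0 → (∀ p : ℕ, p.Prime → p ∣ d → Q p) → ∃ x : ℤ, (d : ℤ) ∣ x ^ 2 - t * x + c ∧
      ∀ p : ℕ, p.Prime → p ∣ d → (p : ℤ) ∣ x - ρ₀ p := by
  intro d
  induction d using induction_on_primes with
  | zero => intro h; exact absurd rfl h
  | one =>
    intro _ _
    refine ⟨0, by simp, ?_⟩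
    intro p hp h
    exact absurd (Nat.dvd_one.1 h) hp.one_lt.ne'
  | prime_mul p d hp ih =>
    intro hne hall
    have hd : d ≠ 0 := by rintro rfl; simp at hne
    obtain ⟨x, hx, hx'⟩ := ih hd (fun q hq h => hall q hq (h.mul_left p))
    obtain ⟨-, hrp, hdp⟩ := hQ p (hall p hp (dvd_mul_right p d))
    have hpZ : Prime (p : ℤ) := Nat.prime_iff_prime_int.1 hp
    by_cases hpd : p ∣ d
    · -- Hensel step
      obtain ⟨m, hm⟩ := hx
      have hxp := hx' p hp hpd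
      have hcop : IsCoprime (2 * x - t) (p : ℤ) := by
        rw [isCoprime_comm]
        rw [hpZ.coprime_iff_not_dvd]
        intro h
        apply hdp
        obtain ⟨e1, he1⟩ := h
        obtain ⟨e2, he2⟩ := hpd
        have h6 : t ^ 2 - 4 * c = (2 * x - t) ^ 2 - 4 * (x ^ 2 - t * x + c) := by ring
        refine ⟨e1 * (p * e1) - 4 * (e2 * m), ?_⟩
        rw [h6, hm, he1, he2]
        push_cast
        ring
      obtain ⟨α, β, hαβ⟩ := hcop
      refine ⟨x + d * (-(m * α)), ?_, ?_⟩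
      · obtain ⟨e2, he2⟩ := hpd
        have e : (x + d * (-(m * α))) ^ 2 - t * (x + d * (-(m * α))) + c =
            (x ^ 2 - t * x + c) - d * (m * (α * (2 * x - t))) + d * d * (m * α) ^ 2 := by ring
        rw [e, hm]
        have e3 : α * (2 * x - t) = 1 - β * p := by linarith
        rw [e3]
        refine ⟨m * β + e2 * (m * α) ^ 2, ?_⟩
        have e4 : (d : ℤ) = p * e2 := by rw [he2]; push_cast; ring
        push_cast
        have : (d : ℤ) * d * (m * α) ^ 2 = (p * e2) * d * (m * α) ^ 2 := by rw [← e4]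
        rw [this]
        ring
      · intro q hq hqd
        have hqd' : q ∣ d := by
          rcases (Nat.Prime.dvd_mul hq).1 hqd with h | h
          · rw [(Nat.prime_dvd_prime_iff_eq hq hp).1 h]; exact hpd
          · exact h
        have e : x + d * (-(m * α)) - ρ₀ q = (x - ρ₀ q) - d * (m * α) := by ring
        rw [e]
        exact dvd_sub (hx' q hq hqd') ((Int.natCast_dvd_natCast.2 hqd').mul_right _)
    · have hcop : IsCoprime (p : ℤ) (d : ℤ) := by
        rw [hpZ.coprime_iff_not_dvd]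
        intro h
        exact hpd (by exact_mod_cast h)
      obtain ⟨α, β, hαβ⟩ := hcop
      -- x' = x * (α p) + ρ₀ p * (β d)
      have hx1 : (d : ℤ) ∣ (x * (α * p) + ρ₀ p * (β * d)) - x := by
        refine ⟨-x * β + ρ₀ p * β, ?_⟩
        have : α * p = 1 - β * d := by linarith
        rw [this]; ring
      have hx2 : (p : ℤ) ∣ (x * (α * p) + ρ₀ p * (β * d)) - ρ₀ p := by
        refine ⟨x * α - ρ₀ p * α, ?_⟩
        have : β * d = 1 - α * p := by linarith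
        rw [this]; ring
      set x' := x * (α * p) + ρ₀ p * (β * d) with hx'def
      have f1 : (d : ℤ) ∣ x' ^ 2 - t * x' + c := by
        have : x' ^ 2 - t * x' + c = (x ^ 2 - t * x + c) + (x' - x) * (x' + x - t) := by ring
        rw [this]
        exact dvd_add hx (hx1.mul_right _)
      have f2 : (p : ℤ) ∣ x' ^ 2 - t * x' + c := by
        have : x' ^ 2 - t * x' + c = (ρ₀ p ^ 2 - t * ρ₀ p + c) + (x' - ρ₀ p) * (x' + ρ₀ p - t) := by
          ring
        rw [this]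
        exact dvd_add hrp (hx2.mul_right _)
      refine ⟨x', ?_, ?_⟩
      · push_cast
        exact (show IsCoprime (p : ℤ) (d : ℤ) from ⟨α, β, hαβ⟩).mul_dvd f2 f1
      · intro q hq hqd
        rcases (Nat.Prime.dvd_mul hq).1 hqd with h | h
        · rw [(Nat.prime_dvd_prime_iff_eq hq hp).1 h]; exact hx2
        · have e : x' - ρ₀ q = (x' - x) + (x - ρ₀ q) := by ring
          rw [e]
          exact dvd_add ((Int.natCast_dvd_natCast.2 h).trans hx1) (hx' q hq h)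

end Pool.Agent.W573.GA
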